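import Mathlib.Combinatorics.SimpleGraph.Paths
import Mathlib.Combinatorics.SimpleGraph.Connectivity.Connected
import Mathlib.Algebra.BigOperators.Group.Finset.Basic
import Mathlib.Algebra.Order.BigOperators.Group.Finset
import Mathlib.Algebra.Group.Nat.Even
import Mathlib.Data.Nat.Find
import Mathlib.Data.Sym.Sym2

/-!
# H91E, file E2: Eulerian circuits of connected even multigraphs
-/

set_option autoImplicit false
set_option linter.unusedSectionVars false

namespace H91E

open Finset SimpleGraph

variable {V : Type*} [Fintype V] [DecidableEq V]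

/-- The degree of `v` in the multigraph with the edge multiplicities `m`. -/
def dg (m : Sym2 V → ℕ) (v : V) : ℕ := ∑ w, m s(v, w)

/-- Degrees of the multigraph of a walk. -/
theorem deg_walk {G : SimpleGraph V} {u v : V} (p : G.Walk u v) (z : V) :
    dg (fun e => p.edges.count e) z + (if z = v then 1 else 0)
      = 2 * p.support.tail.count z + (if z = u then 1 else 0) := by
  induction p with
  | nil => simp [dg]
  | @cons u a v h p ih =>
    have h1 : dg (fun e => (Walk.cons h p).edges.count e) z
        = dg (fun e => p.edges.count e) z + ((if z = u then 1 else 0) + (if z = a then 1 else 0)) := by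
      simp only [dg, Walk.edges_cons, List.count_cons, Finset.sum_add_distrib, beq_iff_eq]
      congr 1
      have hne : u ≠ a := h.ne
      by_cases hzu : z = u
      · subst hzu
        rw [if_pos rfl, if_neg hne]
        rw [Finset.sum_eq_single a]
        · simp
        · intro b _ hb
          rw [if_neg]
          intro he
          rw [Sym2.eq_iff] at he
          rcases he with ⟨_, h2⟩ | ⟨h2, h3⟩
          · exact hb h2.symm
          · exact hne h3.symm
        · intro h2
          exact absurd (Finset.mem_univ a) h2
      · rw [if_neg hzu]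
        by_cases hza : z = a
        · subst hza
          rw [if_pos rfl, Finset.sum_eq_single u]
          · simp [Sym2.eq_swap]
          · intro b _ hb
            rw [if_neg]
            intro he
            rw [Sym2.eq_iff] at he
            rcases he with ⟨h2, _⟩ | ⟨h2, _⟩
            · exact hzu h2.symm
            · exact hb h2.symm
          · intro h2
            exact absurd (Finset.mem_univ u) h2
        · rw [if_neg hza]
          apply Finset.sum_eq_zero
          intro b _
          rw [if_neg]
          intro he
          rw [Sym2.eq_iff] at he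
          rcases he with ⟨h2, _⟩ | ⟨_, h2⟩
          · exact hzu h2.symm
          · exact hza h2.symm
    rw [h1]
    have h2 : (Walk.cons h p).support.tail.count z
        = p.support.tail.count z + (if z = a then 1 else 0) := by
      rw [Walk.support_cons, List.tail_cons]
      conv_lhs => rw [← Walk.cons_tail_support p]
      rw [List.count_cons]
      simp only [beq_iff_eq]
      congr 1
      by_cases hza : z = a
      · rw [if_pos hza, if_pos hza.symm]
      · rw [if_neg hza, if_neg fun h => hza h.symm]
    rw [h2]
    omega

/-- A closed walk passes `z` half as often as its degree. -/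
theorem deg_closed {G : SimpleGraph V} {u : V} (p : G.Walk u u) (z : V) :
    dg (fun e => p.edges.count e) z = 2 * p.support.tail.count z := by
  have := deg_walk p z
  omega

private theorem E2_len {G : SimpleGraph V} {u v : V} (p : G.Walk u v) {m : Sym2 V → ℕ}
    (h : ∀ e, p.edges.count e ≤ m e) : p.length ≤ ∑ e, m e := by
  rw [← Walk.length_edges, ← List.sum_toFinset_count_eq_length]
  refine le_trans (Finset.sum_le_sum fun e _ => h e) ?_
  exact Finset.sum_le_sum_of_subset (Finset.subset_univ _)

private theorem E2_rotate {G : SimpleGraph V} {u v : V} (p : G.Walk u u) (h : v ∈ p.support) :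
    ∀ e, (p.rotate v h).edges.count e = p.edges.count e := fun e =>
  (p.rotate_edges v h).perm.count_eq e

/-- Euler's theorem: a connected multigraph with all degrees even has a closed walk which uses every edge exactly
as often as prescribed. -/
theorem euler {G : SimpleGraph V} {m : Sym2 V → ℕ} (hm : ∀ a b, m s(a, b) ≠ 0 → G.Adj a b)
    (hcon : ∀ S : Finset V, S.Nonempty → S ≠ univ → ∃ a ∈ S, ∃ b, b ∉ S ∧ m s(a, b) ≠ 0)
    (hev : ∀ v, Even (dg m v)) (u : V) : ∃ w : G.Walk u u, ∀ e, w.edges.count e = m e := by
  classical
  -- a closed walk of maximal length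
  have hex : ∃ n : ℕ, ∃ (x : V) (w : G.Walk x x), (∀ e, w.edges.count e ≤ m e) ∧ w.length = n :=
    ⟨0, u, Walk.nil, fun e => by simp, rfl⟩
  have hbd : ∀ n : ℕ, (∃ (x : V) (w : G.Walk x x), (∀ e, w.edges.count e ≤ m e) ∧ w.length = n) →
      n ≤ ∑ e, m e := by
    rintro n ⟨x, w, hw, rfl⟩
    exact E2_len w hw
  obtain ⟨n, ⟨x, w, hw, hn⟩, hmax⟩ : ∃ n, (∃ (x : V) (w : G.Walk x x), (∀ e, w.edges.count e ≤ m e) ∧
      w.length = n) ∧ ∀ k, (∃ (x : V) (w : G.Walk x x), (∀ e, w.edges.count e ≤ m e) ∧ w.length = k) →
      k ≤ n := by
    refine ⟨Nat.findGreatest (fun n => ∃ (x : V) (w : G.Walk x x), (∀ e, w.edges.count e ≤ m e) ∧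
      w.length = n) (∑ e, m e), ?_, ?_⟩
    · obtain ⟨n0, hn0⟩ := hex
      exact Nat.findGreatest_spec (P := fun n => ∃ (x : V) (w : G.Walk x x),
        (∀ e, w.edges.count e ≤ m e) ∧ w.length = n) (hbd n0 hn0) hn0
    · intro k hk
      exact Nat.le_findGreatest (hbd k hk) hk
  by_cases hall : ∀ e, w.edges.count e = m e
  · -- every vertex is on the walk
    have hu : u ∈ w.support := by
      by_contra hu
      have hS : w.support.toFinset ≠ univ := fun h => hu (List.mem_toFinset.1 (h ▸ Finset.mem_univ u))
      obtain ⟨a, ha, b, hb, hab⟩ := hcon w.support.toFinset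
        ⟨x, List.mem_toFinset.2 w.start_mem_support⟩ hS
      rw [List.mem_toFinset] at ha hb
      rw [← hall] at hab
      exact hb (w.snd_mem_support_of_mem_edges (List.count_pos_iff.1 (Nat.pos_of_ne_zero hab)))
    exact ⟨w.rotate u hu, fun e => by rw [E2_rotate, hall]⟩
  exfalso
  push Not at hall
  obtain ⟨e0, he0⟩ := hall
  -- residual multiplicities
  let r : Sym2 V → ℕ := fun e => m e - w.edges.count e
  have hr : ∀ e, r e + w.edges.count e = m e := fun e => Nat.sub_add_cancel (hw e)
  have hrev : ∀ v, Even (dg r v) := by
    intro v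
    have h1 : dg r v + dg (fun e => w.edges.count e) v = dg m v := by
      simp only [dg, ← Finset.sum_add_distrib]
      exact Finset.sum_congr rfl fun a _ => hr _
    have h2 := hev v
    rw [← h1, deg_closed] at h2
    rw [Nat.even_add] at h2
    exact h2.2 ⟨w.support.tail.count v, by omega⟩
  -- a vertex of the walk with a residual edge
  obtain ⟨a, ha, b, hb⟩ : ∃ a ∈ w.support, ∃ b, r s(a, b) ≠ 0 := by
    by_cases hS : w.support.toFinset = univ
    · induction e0 with
      | h a b =>
        refine ⟨a, List.mem_toFinset.1 (hS ▸ Finset.mem_univ a), b, ?_⟩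
        have := hr s(a, b)
        omega
    · obtain ⟨a, ha, b, hb, hab⟩ := hcon w.support.toFinset
        ⟨x, List.mem_toFinset.2 w.start_mem_support⟩ hS
      rw [List.mem_toFinset] at ha hb
      refine ⟨a, ha, b, ?_⟩
      have h1 : w.edges.count s(a, b) = 0 := by
        rw [List.count_eq_zero]
        exact fun h => hb (w.snd_mem_support_of_mem_edges h)
      have := hr s(a, b)
      omega
  -- a maximal residual walk from `a`
  obtain ⟨k, ⟨z, q, hq, hk⟩, hqmax⟩ : ∃ n, (∃ (z : V) (q : G.Walk a z), (∀ e, q.edges.count e ≤ r e) ∧
      q.length = n) ∧ ∀ k, (∃ (z : V) (q : G.Walk a z), (∀ e, q.edges.count e ≤ r e) ∧ q.length = k) →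
      k ≤ n := by
    have hbd' : ∀ n : ℕ, (∃ (z : V) (q : G.Walk a z), (∀ e, q.edges.count e ≤ r e) ∧ q.length = n) →
        n ≤ ∑ e, r e := by
      rintro n ⟨z, q, hq, rfl⟩
      exact E2_len q hq
    refine ⟨Nat.findGreatest (fun n => ∃ (z : V) (q : G.Walk a z), (∀ e, q.edges.count e ≤ r e) ∧
      q.length = n) (∑ e, r e), ?_, ?_⟩
    · exact Nat.findGreatest_spec (P := fun n => ∃ (z : V) (q : G.Walk a z),
        (∀ e, q.edges.count e ≤ r e) ∧ q.length = n) (Nat.zero_le _)
        ⟨a, Walk.nil, fun e => by simp, rfl⟩
    · intro k hk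
      exact Nat.le_findGreatest (hbd' k hk) hk
  have hrm : ∀ e, r e ≤ m e := fun e => Nat.sub_le _ _
  have hext : ∀ b', q.edges.count s(z, b') < r s(z, b') → False := by
    intro b' hb'
    have hadj : G.Adj z b' := hm z b' (by have := hrm s(z, b'); omega)
    have := hqmax (q.length + 1) ⟨b', q.concat hadj, fun e => by
      rw [Walk.edges_concat, List.concat_eq_append, List.count_append, List.count_singleton]
      by_cases he : s(z, b') = e
      · subst he
        simp only [beq_self_eq_true, if_true]
        omega
      · have : (s(z, b') == e) = false := by simpa using he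
        rw [this]
        simpa using hq e, by rw [Walk.length_concat]⟩
    omega
  have hza : z = a := by
    by_contra hza
    have h1 := deg_walk q z
    rw [if_pos rfl, if_neg hza] at h1
    have h2 : dg (fun e => q.edges.count e) z < dg r z := by
      have h3 : dg (fun e => q.edges.count e) z ≤ dg r z := Finset.sum_le_sum fun b' _ => hq _
      refine lt_of_le_of_ne h3 fun h4 => ?_
      have h5 := hrev z
      rw [← h4] at h5
      obtain ⟨t, ht⟩ := h5
      omega
    obtain ⟨b', _, hb'⟩ := Finset.exists_lt_of_sum_lt h2
    exact hext b' hb'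
  subst hza
  have hk0 : 0 < q.length := by
    by_contra h0
    have h1 : q.edges = [] := by
      rw [← List.length_eq_zero_iff, Walk.length_edges]
      omega
    refine hext b ?_
    rw [h1]
    simpa using Nat.pos_of_ne_zero hb
  have := hmax ((w.rotate z ha).append q).length ⟨z, (w.rotate z ha).append q, fun e => by
    rw [Walk.edges_append, List.count_append, E2_rotate]
    have h1 := hq e
    have h2 := hr e
    omega, rfl⟩
  rw [Walk.length_append] at this
  have h2 : (w.rotate z ha).length = w.length := by
    rw [← Walk.length_edges, ← Walk.length_edges]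
    exact (w.rotate_edges z ha).perm.length_eq
  omega

end H91E
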