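import Pool.Agent.Lib.H91E.E2
import Pool.Agent.Lib.H97W.Fin

/-!
# H91E, file E3: a tree of maximum degree 3 and a join give a closed spanning walk through every vertex once or twice
-/

set_option autoImplicit false
set_option linter.unusedSectionVars false

namespace H91E

open Finset SimpleGraph H98P H63F

variable {V : Type*} [Fintype V] [DecidableEq V]

/-- The degree as a sum over the edges at `v`. -/
theorem dg_eq (j : Sym2 V → ℕ) (v : V) : dg j v = ∑ e ∈ univ.filter (fun e : Sym2 V => v ∈ e), j e := by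
  classical
  unfold dg
  refine Finset.sum_bij (fun w _ => s(v, w)) ?_ ?_ ?_ ?_
  · intro w _
    rw [mem_filter]
    exact ⟨mem_univ _, Sym2.mem_mk_left v w⟩
  · intro a _ b _ h
    exact Sym2.congr_right.1 h
  · intro e he
    rw [mem_filter] at he
    obtain ⟨w, hw⟩ := Sym2.mem_iff_exists.1 he.2
    exact ⟨w, mem_univ _, hw.symm⟩
  · intro w _
    rfl

open Classical in
private theorem E3_deg (T : SimpleGraph V) (v : V) :
    dg (fun e => if e ∈ T.edgeSet then 1 else 0) v = (T.neighborSet v).ncard := by
  unfold dg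
  rw [Finset.sum_boole, Set.ncard_eq_toFinset_card']
  simp only [Nat.cast_id]
  congr 1
  ext w
  simp

/-- The closed walk. -/
theorem walk_of {G T : SimpleGraph V} (hTG : T ≤ G) (hT : T.IsTree) (hd : ∀ v, (T.neighborSet v).ncard ≤ 3)
    (hV : 2 ≤ Fintype.card V) {j : Sym2 V → ℕ} (hj : ∀ a b, j s(a, b) ≠ 0 → G.Adj a b)
    (h1 : ∀ v, Odd (T.neighborSet v).ncard → dg j v = 1)
    (h2 : ∀ v, ¬ Odd (T.neighborSet v).ncard → dg j v = 0 ∨ dg j v = 2) (u : V) :
    ∃ w : G.Walk u u, (∀ v, 1 ≤ w.support.tail.count v ∧ w.support.tail.count v ≤ 2) ∧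
      w.length + 1 = Fintype.card V + ∑ e, j e := by
  classical
  have : Nontrivial V := Fintype.one_lt_card_iff_nontrivial.1 (by omega)
  let t : Sym2 V → ℕ := fun e => if e ∈ T.edgeSet then 1 else 0
  have ht : ∀ v, dg t v = (T.neighborSet v).ncard := fun v => E3_deg T v
  have hpos : ∀ v, 1 ≤ (T.neighborSet v).ncard := by
    intro v
    obtain ⟨v', hv'⟩ := hT.connected.preconnected.exists_adj_of_nontrivial v
    exact (Set.ncard_pos (Set.toFinite _)).2 ⟨v', hv'⟩
  have hsum : ∀ v, dg (fun e => t e + j e) v = (T.neighborSet v).ncard + dg j v := by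
    intro v
    rw [← ht]
    simp only [dg, Finset.sum_add_distrib]
  have h24 : ∀ v, dg (fun e => t e + j e) v = 2 ∨ dg (fun e => t e + j e) v = 4 := by
    intro v
    rw [hsum]
    have h3 := hd v
    have h4 := hpos v
    by_cases ho : Odd (T.neighborSet v).ncard
    · rw [h1 v ho]
      obtain ⟨k, hk⟩ := ho
      omega
    · have h5 := h2 v ho
      rw [Nat.not_odd_iff_even] at ho
      obtain ⟨k, hk⟩ := ho
      omega
  obtain ⟨w, hw⟩ := euler (G := G) (m := fun e => t e + j e) (by
      intro a b hab
      by_cases h : j s(a, b) = 0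
      · have h3 : t s(a, b) ≠ 0 := by
          intro h4
          exact hab (by simp only [h, h4])
        by_cases h4 : s(a, b) ∈ T.edgeSet
        · exact hTG h4
        · exact absurd (if_neg h4) h3
      · exact hj a b h) (by
      intro S hS hSu
      obtain ⟨a, ha⟩ := hS
      obtain ⟨y, hy⟩ : ∃ y, y ∉ S := by
        by_contra hc
        push Not at hc
        exact hSu (Finset.eq_univ_of_forall hc)
      obtain ⟨p⟩ := hT.connected.preconnected a y
      obtain ⟨d, hd, hd1, hd2⟩ := p.exists_boundary_dart (S : Set V) ha (by simpa using hy)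
      refine ⟨d.fst, hd1, d.snd, by simpa using hd2, ?_⟩
      have h3 : t s(d.fst, d.snd) = 1 := if_pos d.adj
      omega) (by
      intro v
      rcases h24 v with h | h
      · rw [h]
        exact ⟨1, rfl⟩
      · rw [h]
        exact ⟨2, rfl⟩) u
  refine ⟨w, ?_, ?_⟩
  · intro v
    have h3 := deg_closed w v
    have h4 : dg (fun e => w.edges.count e) v = dg (fun e => t e + j e) v := by
      unfold dg
      exact Finset.sum_congr rfl fun a _ => hw _
    rw [h4] at h3
    rcases h24 v with h | h <;> omega
  · have h3 : w.length = ∑ e, (t e + j e) := by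
      rw [← Walk.length_edges, ← List.sum_toFinset_count_eq_length]
      rw [Finset.sum_subset (Finset.subset_univ _)]
      · exact Finset.sum_congr rfl fun e _ => hw e
      · intro e _ he
        rw [List.mem_toFinset] at he
        exact List.count_eq_zero_of_not_mem he
    have h4 : ∑ e, t e + 1 = Fintype.card V := by
      have h5 := hT.card_edgeFinset
      have h6 : ∑ e, t e = T.edgeFinset.card := by
        simp only [t]
        rw [Finset.sum_boole]
        simp only [Nat.cast_id]
        congr 1
        ext e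
        simp
      omega
    rw [h3, Finset.sum_add_distrib]
    omega

/-- A fractional Hamiltonian cycle and the join lemma give the closed walk. -/
theorem two_walk_of_join {G : Finset (Sym2 V)} {y : Sym2 V → ℝ} (h : FracHam G y) (hV : 3 ≤ Fintype.card V)
    (hjoin : ∀ O : Finset V, Even O.card → ∃ j : Sym2 V → ℕ, (∀ e, j e ≠ 0 → e ∈ G) ∧
      (∀ v, v ∈ O → ∑ e ∈ univ.filter (fun e : Sym2 V => v ∈ e), j e = 1) ∧
      (∀ v, v ∉ O → (∑ e ∈ univ.filter (fun e : Sym2 V => v ∈ e), j e = 0 ∨
        ∑ e ∈ univ.filter (fun e : Sym2 V => v ∈ e), j e = 2)) ∧ 2 * ∑ e, j e ≤ Fintype.card V) (u : V) :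
    ∃ w : (SimpleGraph.fromEdgeSet (G : Set (Sym2 V))).Walk u u,
      (∀ v, 1 ≤ w.support.tail.count v ∧ w.support.tail.count v ≤ 2) ∧
      2 * w.length + 2 ≤ 3 * Fintype.card V := by
  classical
  have : Nonempty V := ⟨u⟩
  obtain ⟨T, hTG, hT, hd⟩ := H97W.tree (tough h) (H97W.crossing_edge h) u u
  have hd3 : ∀ v, (T.neighborSet v).ncard ≤ 3 := fun v => by
    have := hd v
    omega
  obtain ⟨j, hj0, hj1, hj2, hj3⟩ := hjoin (univ.filter fun v => Odd (T.neighborSet v).ncard) (by
    have h3 := T.even_card_odd_degree_vertices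
    have h4 : (univ.filter fun v => Odd (T.neighborSet v).ncard) = univ.filter fun v => Odd (T.degree v) := by
      refine Finset.filter_congr fun v _ => ?_
      have h5 : (T.neighborSet v).ncard = T.degree v := by
        rw [Set.ncard_eq_toFinset_card']
        rfl
      rw [h5]
    rw [h4]
    exact h3)
  obtain ⟨w, hw1, hw2⟩ := walk_of (G := SimpleGraph.fromEdgeSet (G : Set (Sym2 V))) hTG hT hd3 (by omega)
    (j := j) (by
      intro a b hab
      rw [SimpleGraph.fromEdgeSet_adj]
      refine ⟨Finset.mem_coe.2 (hj0 _ hab), ?_⟩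
      rintro rfl
      exact h.loop a (hj0 _ hab)) (by
      intro v hv
      rw [dg_eq]
      exact hj1 v (mem_filter.2 ⟨mem_univ _, hv⟩)) (by
      intro v hv
      rw [dg_eq]
      exact hj2 v fun h => hv (mem_filter.1 h).2) u
  exact ⟨w, hw1, by omega⟩

end H91E
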