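import Pool.Agent.Lib.H91E.E3
import Pool.Agent.Lib.H13W.J

/-!
# H91E, file E4: a fractional Hamiltonian cycle gives a closed spanning walk through every vertex once or twice,
with at most `3n/2 - 1` steps
-/

set_option autoImplicit false

namespace H91E

open Finset SimpleGraph H98P H63F

variable {V : Type*} [Fintype V] [DecidableEq V]

/-- Every graph with a fractional Hamiltonian cycle has a closed walk of length at most `3n/2 - 1` (from every
vertex) which visits every vertex once or twice. -/
theorem two_walk {G : Finset (Sym2 V)} {y : Sym2 V → ℝ} (h : FracHam G y) (hV : 3 ≤ Fintype.card V) (u : V) :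
    ∃ w : (SimpleGraph.fromEdgeSet (G : Set (Sym2 V))).Walk u u,
      (∀ v, 1 ≤ w.support.tail.count v ∧ w.support.tail.count v ≤ 2) ∧
      2 * w.length + 2 ≤ 3 * Fintype.card V :=
  two_walk_of_join h hV (fun O hO => H13W.join h O hO) u

end H91E
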